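import Pool.Agent.H329R3.PM.All

open MeasureTheory Set Filter Topology
open scoped RealInnerProductSpace

namespace Pool.Agent.Results.MP_4eb066_an.FinitePropagation

/-- `ℝ^N` -/
abbrev E (N : ℕ) := EuclideanSpace ℝ (Fin N)

/-- `c(N,s) = π^{N/2-2s} Γ(s) / Γ((N-2s)/2)` -/
noncomputable def cNs (N : ℕ) (s : ℝ) : ℝ :=
  Real.pi ^ ((N : ℝ) / 2 - 2 * s) * Real.Gamma s / Real.Gamma (((N : ℝ) - 2 * s) / 2)

/-- the Riesz kernel `K_s(x) = c(N,s)⁻¹ |x|^{-(N-2s)}` -/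
noncomputable def Ks (N : ℕ) (s : ℝ) (x : E N) : ℝ := (cNs N s)⁻¹ * ‖x‖ ^ (-((N : ℝ) - 2 * s))

/-- the potential `K_s * f` -/
noncomputable def pot (N : ℕ) (s : ℝ) (f : E N → ℝ) (x : E N) : ℝ := ∫ y, Ks N s (x - y) * f y

/-- the locally integrable vector field `G` is the distributional gradient of the locally
integrable function `f`: `∫ f ∂_v ψ = - ∫ (G·v) ψ` for all `C¹` compactly supported `ψ` and all
directions `v` -/
structure IsDistGrad (N : ℕ) (f : E N → ℝ) (G : E N → E N) : Prop where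
  locf : LocallyIntegrable f
  locG : LocallyIntegrable G
  parts : ∀ ψ : E N → ℝ, ContDiff ℝ 1 ψ → HasCompactSupport ψ → ∀ v : E N,
    ∫ x, f x * fderiv ℝ ψ x v = - ∫ x, ⟪G x, v⟫ * ψ x

/-- test functions: `C¹` on space-time, compactly supported in `x` for each `t ∈ (0,T)`, vanishing
near `t = T` -/
structure TestFun (N : ℕ) (T : ℝ) (φ : E N × ℝ → ℝ) : Prop where
  smooth : ContDiff ℝ 1 φ
  compact : ∀ t ∈ Ioo 0 T, HasCompactSupport (fun x : E N => φ (x, t))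
  vanish : ∃ δ > 0, ∀ t ∈ Icc (T - δ) T, ∀ x : E N, φ (x, t) = 0

/-- `u ≥ 0` is a weak solution of `u_t = ∇·(u^{m-1} ∇ K_s[u])` on `ℝ^N × (0,T)` with initial datum
`u₀`, where `G = ∇ K_s[u]` in the sense of distributions in `x`: (i) `u` is integrable on
`ℝ^N × (0,T)`; (ii) for a.e. `t` the integral `K_s[u](x,t)` converges for every `x` and `G(·,t)` is
its distributional gradient, and `G` is integrable on `B_R × (0,T)` for every `R`; (iii)
`u^{m-1} G` is integrable on `ℝ^N × (0,T)`; (iv) the weak identity. -/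
structure IsWeakSolution (N : ℕ) (m s T : ℝ) (u₀ : E N → ℝ) (u : E N → ℝ → ℝ)
    (G : E N → ℝ → E N) : Prop where
  nonneg : ∀ x, ∀ t ∈ Ioo 0 T, 0 ≤ u x t
  int_u : Integrable (fun z : E N × ℝ => u z.1 z.2) (volume.prod (volume.restrict (Ioo 0 T)))
  pot_int : ∀ᵐ t ∂(volume.restrict (Ioo 0 T)), ∀ x, Integrable (fun y => Ks N s (x - y) * u y t)
  grad : ∀ᵐ t ∂(volume.restrict (Ioo 0 T)),
    IsDistGrad N (pot N s (fun y => u y t)) (fun x => G x t)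
  grad_int : ∀ R : ℝ, Integrable (fun z : E N × ℝ => G z.1 z.2)
    ((volume.restrict (Metric.ball 0 R)).prod (volume.restrict (Ioo 0 T)))
  flux_int : Integrable (fun z : E N × ℝ => (u z.1 z.2) ^ (m - 1) • G z.1 z.2)
    (volume.prod (volume.restrict (Ioo 0 T)))
  weak : ∀ φ : E N × ℝ → ℝ, TestFun N T φ →
    (∫ t in Ioo 0 T, ∫ x, u x t * deriv (fun t' => φ (x, t')) t)
    - (∫ t in Ioo 0 T, ∫ x, (u x t) ^ (m - 1) * ⟪G x t, gradient (fun x' => φ (x', t)) x⟫)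
    + ∫ x, u₀ x * φ (x, 0) = 0

/-- infinite speed of propagation: for every `t ∈ (0,T)`, `u(·,t)` is not essentially compactly
supported -/
def InfiniteSpeed (N : ℕ) (T : ℝ) (u : E N → ℝ → ℝ) : Prop :=
  ∀ t ∈ Ioo 0 T, ∀ R > 0, volume {x : E N | R ≤ ‖x‖ ∧ 0 < u x t} ≠ 0

/-- Question Q1: for all `N ≥ 2`, `m ∈ (1,2)`, `s ∈ (0,1)`, every bounded weak solution whose
initial datum is bounded, nonnegative, compactly supported and not a.e. zero has infinite speed of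
propagation. -/
def Q1 : Prop :=
  ∀ (N : ℕ) (m s T : ℝ), 2 ≤ N → m ∈ Ioo 1 2 → s ∈ Ioo 0 1 → 0 < T →
    ∀ (u₀ : E N → ℝ) (u : E N → ℝ → ℝ) (G : E N → ℝ → E N),
      Measurable u₀ → (∀ x, 0 ≤ u₀ x) → (∃ C, ∀ x, u₀ x ≤ C) → HasCompactSupport u₀ →
      ¬ (u₀ =ᵐ[volume] 0) → (∃ C, ∀ x, ∀ t ∈ Ioo 0 T, u x t ≤ C) →
      IsWeakSolution N m s T u₀ u G → InfiniteSpeed N T u

/-- Question Q1 has a negative answer; moreover for `N = 3`, `m = 3/2`, `s = 3/4` there is one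
bounded function `u` on `ℝ³ × [0,∞)`, with `u(·,0) = u₀` bounded, nonnegative, supported in the unit
ball and not a.e. zero, and `u(·,t)` supported in the ball of radius `√(1+t)`, whose potential is
everywhere differentiable in `x`, and which is a weak solution on `ℝ³ × (0,T)` for every `T`, with
`G` the classical gradient of the potential. -/
theorem result : ¬ Q1 ∧
    ∃ (u₀ : E 3 → ℝ) (u : E 3 → ℝ → ℝ), Measurable u₀ ∧ (∀ x, 0 ≤ u₀ x) ∧ (∃ C, ∀ x, u₀ x ≤ C) ∧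
      (∀ x, 1 < ‖x‖ → u₀ x = 0) ∧ ¬ (u₀ =ᵐ[volume] 0) ∧ (∀ x, u x 0 = u₀ x) ∧
      (∃ C, ∀ x t, 0 ≤ t → u x t ≤ C) ∧ (∀ x t, 0 ≤ t → √(1 + t) < ‖x‖ → u x t = 0) ∧
      (∀ t, 0 < t → Differentiable ℝ (pot 3 (3 / 4) (fun y => u y t))) ∧
      ∀ T > 0, IsWeakSolution 3 (3 / 2) (3 / 4) T u₀ u
        (fun x t => gradient (pot 3 (3 / 4) (fun y => u y t)) x) := by
  obtain ⟨F, G, hP, hne⟩ := Pool.Agent.H329R3.PM.exists_profile_all
  obtain ⟨B, hB⟩ := hP.bdd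
  have hsol := Pool.Agent.H329R3.PM.weak_all F G hP
  have hex : ∃ (u₀ : E 3 → ℝ) (u : E 3 → ℝ → ℝ), Measurable u₀ ∧ (∀ x, 0 ≤ u₀ x) ∧
      (∃ C, ∀ x, u₀ x ≤ C) ∧
      (∀ x, 1 < ‖x‖ → u₀ x = 0) ∧ ¬ (u₀ =ᵐ[volume] 0) ∧ (∀ x, u x 0 = u₀ x) ∧
      (∃ C, ∀ x t, 0 ≤ t → u x t ≤ C) ∧ (∀ x t, 0 ≤ t → √(1 + t) < ‖x‖ → u x t = 0) ∧
      (∀ t, 0 < t → Differentiable ℝ (pot 3 (3 / 4) (fun y => u y t))) ∧
      ∀ T > 0, IsWeakSolution 3 (3 / 2) (3 / 4) T u₀ u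
        (fun x t => gradient (pot 3 (3 / 4) (fun y => u y t)) x) := by
    refine ⟨F, Pool.Agent.H329R3.PM.selfSim F, hP.measF, hP.nonneg, ⟨B, hB⟩, hP.supp, hne, ?_,
      ⟨B, Pool.Agent.H329R3.PM.selfSim_le hP.nonneg hB⟩,
      Pool.Agent.H329R3.PM.selfSim_supp hP.supp, ?_, ?_⟩
    · intro x
      unfold Pool.Agent.H329R3.PM.selfSim
      simp
    · intro t ht
      exact (hsol (t + 1) (by linarith)).pot_diff t ⟨ht, by linarith⟩
    · intro T hT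
      have h := hsol T hT
      refine ⟨h.nonneg, h.int_u, ?_, ?_, h.grad_int, h.flux_int, ?_⟩
      · exact (ae_restrict_iff' measurableSet_Ioo).2 (Eventually.of_forall fun t ht => h.pot_int t ht)
      · refine (ae_restrict_iff' measurableSet_Ioo).2 (Eventually.of_forall fun t ht => ?_)
        have hl := Pool.Agent.H329R3.PM.grad_locInt Pool.Agent.H329R3.PM.scale_all hP t ht.1.le
        exact ⟨(h.pot_diff t ht).continuous.locallyIntegrable, hl, fun ψ h1 h2 v =>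
          Pool.Agent.H329R3.PM.dist_grad (h.pot_diff t ht) hl ψ h1 h2 v⟩
      · intro φ hφ
        exact h.weak φ ⟨hφ.smooth, hφ.compact, hφ.vanish⟩
  refine ⟨fun hQ => ?_, hex⟩
  obtain ⟨u₀, u, h1, h2, ⟨C, h3⟩, h4, h5, -, ⟨C', h7⟩, h8, -, h9⟩ := hex
  have hcs : HasCompactSupport u₀ := by
    refine HasCompactSupport.intro (isCompact_closedBall (0 : E 3) 1) (fun x hx => ?_)
    apply h4
    simpa using hx
  have := hQ 3 (3 / 2) (3 / 4) 1 (by norm_num) ⟨by norm_num, by norm_num⟩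
    ⟨by norm_num, by norm_num⟩ one_pos u₀ u _ h1 h2 ⟨C, h3⟩ hcs h5
    ⟨C', fun x t ht => h7 x t ht.1.le⟩ (h9 1 one_pos) (1 / 2) ⟨by norm_num, by norm_num⟩ 2
    (by norm_num)
  apply this
  have hemp : {x : E 3 | (2 : ℝ) ≤ ‖x‖ ∧ 0 < u x (1 / 2)} = ∅ := by
    ext x
    simp only [Set.mem_ofPred_eq, mem_empty_iff_false, iff_false, not_and, not_lt]
    intro hx
    rw [h8 x (1 / 2) (by norm_num) ?_]
    refine lt_of_lt_of_le ?_ hx
    rw [Real.sqrt_lt' (by norm_num)]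
    norm_num
  rw [hemp]
  simp

end Pool.Agent.Results.MP_4eb066_an.FinitePropagation
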